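import Pool.Agent.W593.IR.Stm3

/-!
# Chord inequalities, `k = 5`
-/

set_option autoImplicit false

namespace Pool.Agent.W79.IR

open Finset Pool.Agent.W593.IR

theorem key {u H : ℕ → ℝ} (h : SQ 5 u H) (j : ℕ) (hj : j < 5) (b : ℝ) (hb : 0 ≤ b) :
    ∃ v : ℝ, 1 / 5 ≤ v ∧ v ≤ 1 / ((j : ℝ) + 1) ∧ ∀ m : ℕ, j + 1 ≤ m → v ≤ 1 / (m : ℝ) →
      (m : ℝ) * (1 - v) ^ (m - (j + 1)) * (v + b * (1 - v)) ≤ u (j + 1) + b * H j := by
  have hU1 := h.u1 (j + 1) (by omega)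
  have hH0 := h.h0 (j + 1) (by omega)
  have hH1 := h.h1 (j + 1) (by omega)
  have hst := h.st j hj
  push_cast at hH0 hH1
  have hj0 : (0 : ℝ) ≤ j := Nat.cast_nonneg j
  have hHp : 0 < H (j + 1) := by linarith
  have hUp : 0 < u (j + 1) := by linarith
  refine ⟨u (j + 1) / H (j + 1), ?_, ?_, ?_⟩
  · rw [div_le_div_iff₀ (by norm_num) hHp]
    linarith
  · rw [div_le_div_iff₀ hHp (by positivity)]
    nlinarith
  · intro m hm hv
    have hmp : (0 : ℝ) < m := by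
      have : 0 < m := by omega
      exact_mod_cast this
    have hm1 : (1 : ℝ) ≤ m := by
      have : 1 ≤ m := by omega
      exact_mod_cast this
    have hmg : (m : ℝ) ≤ H (j + 1) / u (j + 1) := by
      rw [div_le_div_iff₀ hHp hmp] at hv
      rw [le_div_iff₀ hUp]
      linarith
    have hch := h.ch (j + 1) (by omega) m hm (H (j + 1) / u (j + 1)) hmg (by linarith) hUp
      (by rw [div_mul_cancel₀ _ hUp.ne'])
    rw [one_div_div] at hch
    set v := u (j + 1) / H (j + 1) with hvdef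
    have hv1 : v ≤ 1 := by
      refine hv.trans ?_
      rw [div_le_one hmp]
      exact hm1
    have hv0 : 0 ≤ v := by positivity
    have hUv : u (j + 1) = H (j + 1) * v := by
      rw [hvdef]
      field_simp
    have hpos : 0 ≤ v + b * (1 - v) := by
      have := mul_nonneg hb (sub_nonneg.mpr hv1)
      linarith
    calc (m : ℝ) * (1 - v) ^ (m - (j + 1)) * (v + b * (1 - v))
        ≤ H (j + 1) * (v + b * (1 - v)) := mul_le_mul_of_nonneg_right hch hpos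
      _ = u (j + 1) + b * (H (j + 1) - u (j + 1)) := by rw [hUv]; ring
      _ ≤ u (j + 1) + b * H j := by
          have : H (j + 1) - u (j + 1) ≤ H j := by linarith
          have := mul_le_mul_of_nonneg_left this hb
          linarith

theorem p0_1 (v : ℝ) (h1 : 1 / 2 ≤ v) (h2 : v ≤ 1 / 1) :
    (4 / 7 : ℝ) ≤ 1 * (1 - v) ^ 0 * (v + 1 / 7 * (1 - v)) := by
  have x : 0 ≤ v - 1 / 2 := by linarith
  have y : 0 ≤ 1 / 1 - v := by linarith
  linarith [mul_nonneg (pow_nonneg x 0) (pow_nonneg y 1), mul_nonneg (pow_nonneg x 1) (pow_nonneg y 0)]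

theorem p0_2 (v : ℝ) (h1 : 1 / 3 ≤ v) (h2 : v ≤ 1 / 2) :
    (4 / 7 : ℝ) ≤ 2 * (1 - v) ^ 1 * (v + 1 / 7 * (1 - v)) := by
  have x : 0 ≤ v - 1 / 3 := by linarith
  have y : 0 ≤ 1 / 2 - v := by linarith
  linarith [mul_nonneg (pow_nonneg x 0) (pow_nonneg y 2), mul_nonneg (pow_nonneg x 1) (pow_nonneg y 1), mul_nonneg (pow_nonneg x 2) (pow_nonneg y 0)]

theorem p0_3 (v : ℝ) (h1 : 1 / 4 ≤ v) (h2 : v ≤ 1 / 3) :
    (4 / 7 : ℝ) ≤ 3 * (1 - v) ^ 2 * (v + 1 / 7 * (1 - v)) := by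
  have x : 0 ≤ v - 1 / 4 := by linarith
  have y : 0 ≤ 1 / 3 - v := by linarith
  linarith [mul_nonneg (pow_nonneg x 0) (pow_nonneg y 3), mul_nonneg (pow_nonneg x 1) (pow_nonneg y 2), mul_nonneg (pow_nonneg x 2) (pow_nonneg y 1), mul_nonneg (pow_nonneg x 3) (pow_nonneg y 0)]

theorem p0_4 (v : ℝ) (h1 : 1 / 5 ≤ v) (h2 : v ≤ 1 / 4) :
    (4 / 7 : ℝ) ≤ 4 * (1 - v) ^ 3 * (v + 1 / 7 * (1 - v)) := by
  have x : 0 ≤ v - 1 / 5 := by linarith
  have y : 0 ≤ 1 / 4 - v := by linarith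
  linarith [mul_nonneg (pow_nonneg x 0) (pow_nonneg y 4), mul_nonneg (pow_nonneg x 1) (pow_nonneg y 3), mul_nonneg (pow_nonneg x 2) (pow_nonneg y 2), mul_nonneg (pow_nonneg x 3) (pow_nonneg y 1), mul_nonneg (pow_nonneg x 4) (pow_nonneg y 0)]

theorem p1_1 (v : ℝ) (h1 : 1 / 2 ≤ v) (h2 : v ≤ 1 / 1) :
    (108 / 217 : ℝ) ≤ 1 * (1 - v) ^ 0 * (v + 13 / 217 * (1 - v)) := by
  have x : 0 ≤ v - 1 / 2 := by linarith
  have y : 0 ≤ 1 / 1 - v := by linarith
  linarith [mul_nonneg (pow_nonneg x 0) (pow_nonneg y 1), mul_nonneg (pow_nonneg x 1) (pow_nonneg y 0)]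

theorem p1_2 (v : ℝ) (h1 : 1 / 3 ≤ v) (h2 : v ≤ 1 / 2) :
    (108 / 217 : ℝ) ≤ 2 * (1 - v) ^ 1 * (v + 13 / 217 * (1 - v)) := by
  have x : 0 ≤ v - 1 / 3 := by linarith
  have y : 0 ≤ 1 / 2 - v := by linarith
  linarith [mul_nonneg (pow_nonneg x 0) (pow_nonneg y 2), mul_nonneg (pow_nonneg x 1) (pow_nonneg y 1), mul_nonneg (pow_nonneg x 2) (pow_nonneg y 0)]

theorem p1_3 (v : ℝ) (h1 : 1 / 4 ≤ v) (h2 : v ≤ 1 / 3) :
    (108 / 217 : ℝ) ≤ 3 * (1 - v) ^ 2 * (v + 13 / 217 * (1 - v)) := by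
  have x : 0 ≤ v - 1 / 4 := by linarith
  have y : 0 ≤ 1 / 3 - v := by linarith
  linarith [mul_nonneg (pow_nonneg x 0) (pow_nonneg y 3), mul_nonneg (pow_nonneg x 1) (pow_nonneg y 2), mul_nonneg (pow_nonneg x 2) (pow_nonneg y 1), mul_nonneg (pow_nonneg x 3) (pow_nonneg y 0)]

theorem p1_4 (v : ℝ) (h1 : 1 / 5 ≤ v) (h2 : v ≤ 1 / 4) :
    (108 / 217 : ℝ) ≤ 4 * (1 - v) ^ 3 * (v + 13 / 217 * (1 - v)) := by
  have x : 0 ≤ v - 1 / 5 := by linarith
  have y : 0 ≤ 1 / 4 - v := by linarith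
  linarith [mul_nonneg (pow_nonneg x 0) (pow_nonneg y 4), mul_nonneg (pow_nonneg x 1) (pow_nonneg y 3), mul_nonneg (pow_nonneg x 2) (pow_nonneg y 2), mul_nonneg (pow_nonneg x 3) (pow_nonneg y 1), mul_nonneg (pow_nonneg x 4) (pow_nonneg y 0)]

theorem p2_1 (v : ℝ) (h1 : 1 / 2 ≤ v) (h2 : v ≤ 1 / 1) :
    (6912 / 14911 : ℝ) ≤ 1 * (1 - v) ^ 0 * (v + 491 / 14911 * (1 - v)) := by
  have x : 0 ≤ v - 1 / 2 := by linarith
  have y : 0 ≤ 1 / 1 - v := by linarith
  linarith [mul_nonneg (pow_nonneg x 0) (pow_nonneg y 1), mul_nonneg (pow_nonneg x 1) (pow_nonneg y 0)]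

theorem p2_2 (v : ℝ) (h1 : 1 / 3 ≤ v) (h2 : v ≤ 1 / 2) :
    (6912 / 14911 : ℝ) ≤ 2 * (1 - v) ^ 1 * (v + 491 / 14911 * (1 - v)) := by
  have x : 0 ≤ v - 1 / 3 := by linarith
  have y : 0 ≤ 1 / 2 - v := by linarith
  linarith [mul_nonneg (pow_nonneg x 0) (pow_nonneg y 2), mul_nonneg (pow_nonneg x 1) (pow_nonneg y 1), mul_nonneg (pow_nonneg x 2) (pow_nonneg y 0)]

theorem p2_3 (v : ℝ) (h1 : 1 / 4 ≤ v) (h2 : v ≤ 1 / 3) :
    (6912 / 14911 : ℝ) ≤ 3 * (1 - v) ^ 2 * (v + 491 / 14911 * (1 - v)) := by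
  have x : 0 ≤ v - 1 / 4 := by linarith
  have y : 0 ≤ 1 / 3 - v := by linarith
  linarith [mul_nonneg (pow_nonneg x 0) (pow_nonneg y 3), mul_nonneg (pow_nonneg x 1) (pow_nonneg y 2), mul_nonneg (pow_nonneg x 2) (pow_nonneg y 1), mul_nonneg (pow_nonneg x 3) (pow_nonneg y 0)]

theorem p2_4 (v : ℝ) (h1 : 1 / 5 ≤ v) (h2 : v ≤ 1 / 4) :
    (6912 / 14911 : ℝ) ≤ 4 * (1 - v) ^ 3 * (v + 491 / 14911 * (1 - v)) := by
  have x : 0 ≤ v - 1 / 5 := by linarith
  have y : 0 ≤ 1 / 4 - v := by linarith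
  linarith [mul_nonneg (pow_nonneg x 0) (pow_nonneg y 4), mul_nonneg (pow_nonneg x 1) (pow_nonneg y 3), mul_nonneg (pow_nonneg x 2) (pow_nonneg y 2), mul_nonneg (pow_nonneg x 3) (pow_nonneg y 1), mul_nonneg (pow_nonneg x 4) (pow_nonneg y 0)]

theorem p3_2 (v : ℝ) (h1 : 1 / 3 ≤ v) (h2 : v ≤ 1 / 2) :
    (18 / 17 : ℝ) ≤ 2 * (1 - v) ^ 0 * (v + 5 / 17 * (1 - v)) := by
  have x : 0 ≤ v - 1 / 3 := by linarith
  have y : 0 ≤ 1 / 2 - v := by linarith
  linarith [mul_nonneg (pow_nonneg x 0) (pow_nonneg y 1), mul_nonneg (pow_nonneg x 1) (pow_nonneg y 0)]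

theorem p3_3 (v : ℝ) (h1 : 1 / 4 ≤ v) (h2 : v ≤ 1 / 3) :
    (18 / 17 : ℝ) ≤ 3 * (1 - v) ^ 1 * (v + 5 / 17 * (1 - v)) := by
  have x : 0 ≤ v - 1 / 4 := by linarith
  have y : 0 ≤ 1 / 3 - v := by linarith
  linarith [mul_nonneg (pow_nonneg x 0) (pow_nonneg y 2), mul_nonneg (pow_nonneg x 1) (pow_nonneg y 1), mul_nonneg (pow_nonneg x 2) (pow_nonneg y 0)]

theorem p3_4 (v : ℝ) (h1 : 1 / 5 ≤ v) (h2 : v ≤ 1 / 4) :
    (18 / 17 : ℝ) ≤ 4 * (1 - v) ^ 2 * (v + 5 / 17 * (1 - v)) := by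
  have x : 0 ≤ v - 1 / 5 := by linarith
  have y : 0 ≤ 1 / 4 - v := by linarith
  linarith [mul_nonneg (pow_nonneg x 0) (pow_nonneg y 3), mul_nonneg (pow_nonneg x 1) (pow_nonneg y 2), mul_nonneg (pow_nonneg x 2) (pow_nonneg y 1), mul_nonneg (pow_nonneg x 3) (pow_nonneg y 0)]

theorem p4_2 (v : ℝ) (h1 : 1 / 3 ≤ v) (h2 : v ≤ 1 / 2) :
    (576 / 721 : ℝ) ≤ 2 * (1 - v) ^ 0 * (v + 101 / 721 * (1 - v)) := by
  have x : 0 ≤ v - 1 / 3 := by linarith
  have y : 0 ≤ 1 / 2 - v := by linarith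
  linarith [mul_nonneg (pow_nonneg x 0) (pow_nonneg y 1), mul_nonneg (pow_nonneg x 1) (pow_nonneg y 0)]

theorem p4_3 (v : ℝ) (h1 : 1 / 4 ≤ v) (h2 : v ≤ 1 / 3) :
    (576 / 721 : ℝ) ≤ 3 * (1 - v) ^ 1 * (v + 101 / 721 * (1 - v)) := by
  have x : 0 ≤ v - 1 / 4 := by linarith
  have y : 0 ≤ 1 / 3 - v := by linarith
  linarith [mul_nonneg (pow_nonneg x 0) (pow_nonneg y 2), mul_nonneg (pow_nonneg x 1) (pow_nonneg y 1), mul_nonneg (pow_nonneg x 2) (pow_nonneg y 0)]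

theorem p4_4 (v : ℝ) (h1 : 1 / 5 ≤ v) (h2 : v ≤ 1 / 4) :
    (576 / 721 : ℝ) ≤ 4 * (1 - v) ^ 2 * (v + 101 / 721 * (1 - v)) := by
  have x : 0 ≤ v - 1 / 5 := by linarith
  have y : 0 ≤ 1 / 4 - v := by linarith
  linarith [mul_nonneg (pow_nonneg x 0) (pow_nonneg y 3), mul_nonneg (pow_nonneg x 1) (pow_nonneg y 2), mul_nonneg (pow_nonneg x 2) (pow_nonneg y 1), mul_nonneg (pow_nonneg x 3) (pow_nonneg y 0)]

theorem p5_3 (v : ℝ) (h1 : 1 / 4 ≤ v) (h2 : v ≤ 1 / 3) :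
    (48 / 31 : ℝ) ≤ 3 * (1 - v) ^ 0 * (v + 11 / 31 * (1 - v)) := by
  have x : 0 ≤ v - 1 / 4 := by linarith
  have y : 0 ≤ 1 / 3 - v := by linarith
  linarith [mul_nonneg (pow_nonneg x 0) (pow_nonneg y 1), mul_nonneg (pow_nonneg x 1) (pow_nonneg y 0)]

theorem p5_4 (v : ℝ) (h1 : 1 / 5 ≤ v) (h2 : v ≤ 1 / 4) :
    (48 / 31 : ℝ) ≤ 4 * (1 - v) ^ 1 * (v + 11 / 31 * (1 - v)) := by
  have x : 0 ≤ v - 1 / 5 := by linarith
  have y : 0 ≤ 1 / 4 - v := by linarith
  linarith [mul_nonneg (pow_nonneg x 0) (pow_nonneg y 2), mul_nonneg (pow_nonneg x 1) (pow_nonneg y 1), mul_nonneg (pow_nonneg x 2) (pow_nonneg y 0)]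

theorem c0 (u H : ℕ → ℝ) (h : SQ 5 u H) :
    (4 / 7 : ℝ) ≤ u 1 + 1 / 7 * H 0 := by
  obtain ⟨v, hv5, hvj, hm⟩ := key h 0 (by norm_num) (1 / 7) (by norm_num)
  norm_num only at hvj hm
  by_cases e1 : 1 / 2 ≤ v
  · have := hm 1 (by norm_num) (by first | (push_cast; linarith) | linarith)
    have k := p0_1 v (by linarith) (by linarith)
    norm_num at this k ⊢
    linarith
  push Not at e1
  by_cases e2 : 1 / 3 ≤ v
  · have := hm 2 (by norm_num) (by first | (push_cast; linarith) | linarith)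
    have k := p0_2 v (by linarith) (by linarith)
    norm_num at this k ⊢
    linarith
  push Not at e2
  by_cases e3 : 1 / 4 ≤ v
  · have := hm 3 (by norm_num) (by first | (push_cast; linarith) | linarith)
    have k := p0_3 v (by linarith) (by linarith)
    norm_num at this k ⊢
    linarith
  push Not at e3
  have := hm 4 (by norm_num) (by first | (push_cast; linarith) | linarith)
  have k := p0_4 v (by linarith) (by linarith)
  norm_num at this k ⊢
  linarith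

theorem c1 (u H : ℕ → ℝ) (h : SQ 5 u H) :
    (108 / 217 : ℝ) ≤ u 1 + 13 / 217 * H 0 := by
  obtain ⟨v, hv5, hvj, hm⟩ := key h 0 (by norm_num) (13 / 217) (by norm_num)
  norm_num only at hvj hm
  by_cases e1 : 1 / 2 ≤ v
  · have := hm 1 (by norm_num) (by first | (push_cast; linarith) | linarith)
    have k := p1_1 v (by linarith) (by linarith)
    norm_num at this k ⊢
    linarith
  push Not at e1
  by_cases e2 : 1 / 3 ≤ v
  · have := hm 2 (by norm_num) (by first | (push_cast; linarith) | linarith)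
    have k := p1_2 v (by linarith) (by linarith)
    norm_num at this k ⊢
    linarith
  push Not at e2
  by_cases e3 : 1 / 4 ≤ v
  · have := hm 3 (by norm_num) (by first | (push_cast; linarith) | linarith)
    have k := p1_3 v (by linarith) (by linarith)
    norm_num at this k ⊢
    linarith
  push Not at e3
  have := hm 4 (by norm_num) (by first | (push_cast; linarith) | linarith)
  have k := p1_4 v (by linarith) (by linarith)
  norm_num at this k ⊢
  linarith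

theorem c2 (u H : ℕ → ℝ) (h : SQ 5 u H) :
    (6912 / 14911 : ℝ) ≤ u 1 + 491 / 14911 * H 0 := by
  obtain ⟨v, hv5, hvj, hm⟩ := key h 0 (by norm_num) (491 / 14911) (by norm_num)
  norm_num only at hvj hm
  by_cases e1 : 1 / 2 ≤ v
  · have := hm 1 (by norm_num) (by first | (push_cast; linarith) | linarith)
    have k := p2_1 v (by linarith) (by linarith)
    norm_num at this k ⊢
    linarith
  push Not at e1
  by_cases e2 : 1 / 3 ≤ v
  · have := hm 2 (by norm_num) (by first | (push_cast; linarith) | linarith)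
    have k := p2_2 v (by linarith) (by linarith)
    norm_num at this k ⊢
    linarith
  push Not at e2
  by_cases e3 : 1 / 4 ≤ v
  · have := hm 3 (by norm_num) (by first | (push_cast; linarith) | linarith)
    have k := p2_3 v (by linarith) (by linarith)
    norm_num at this k ⊢
    linarith
  push Not at e3
  have := hm 4 (by norm_num) (by first | (push_cast; linarith) | linarith)
  have k := p2_4 v (by linarith) (by linarith)
  norm_num at this k ⊢
  linarith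

theorem c3 (u H : ℕ → ℝ) (h : SQ 5 u H) :
    (18 / 17 : ℝ) ≤ u 2 + 5 / 17 * H 1 := by
  obtain ⟨v, hv5, hvj, hm⟩ := key h 1 (by norm_num) (5 / 17) (by norm_num)
  norm_num only at hvj hm
  by_cases e2 : 1 / 3 ≤ v
  · have := hm 2 (by norm_num) (by first | (push_cast; linarith) | linarith)
    have k := p3_2 v (by linarith) (by linarith)
    norm_num at this k ⊢
    linarith
  push Not at e2
  by_cases e3 : 1 / 4 ≤ v
  · have := hm 3 (by norm_num) (by first | (push_cast; linarith) | linarith)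
    have k := p3_3 v (by linarith) (by linarith)
    norm_num at this k ⊢
    linarith
  push Not at e3
  have := hm 4 (by norm_num) (by first | (push_cast; linarith) | linarith)
  have k := p3_4 v (by linarith) (by linarith)
  norm_num at this k ⊢
  linarith

theorem c4 (u H : ℕ → ℝ) (h : SQ 5 u H) :
    (576 / 721 : ℝ) ≤ u 2 + 101 / 721 * H 1 := by
  obtain ⟨v, hv5, hvj, hm⟩ := key h 1 (by norm_num) (101 / 721) (by norm_num)
  norm_num only at hvj hm
  by_cases e2 : 1 / 3 ≤ v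
  · have := hm 2 (by norm_num) (by first | (push_cast; linarith) | linarith)
    have k := p4_2 v (by linarith) (by linarith)
    norm_num at this k ⊢
    linarith
  push Not at e2
  by_cases e3 : 1 / 4 ≤ v
  · have := hm 3 (by norm_num) (by first | (push_cast; linarith) | linarith)
    have k := p4_3 v (by linarith) (by linarith)
    norm_num at this k ⊢
    linarith
  push Not at e3
  have := hm 4 (by norm_num) (by first | (push_cast; linarith) | linarith)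
  have k := p4_4 v (by linarith) (by linarith)
  norm_num at this k ⊢
  linarith

theorem c5 (u H : ℕ → ℝ) (h : SQ 5 u H) :
    (48 / 31 : ℝ) ≤ u 3 + 11 / 31 * H 2 := by
  obtain ⟨v, hv5, hvj, hm⟩ := key h 2 (by norm_num) (11 / 31) (by norm_num)
  norm_num only at hvj hm
  by_cases e3 : 1 / 4 ≤ v
  · have := hm 3 (by norm_num) (by first | (push_cast; linarith) | linarith)
    have k := p5_3 v (by linarith) (by linarith)
    norm_num at this k ⊢
    linarith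
  push Not at e3
  have := hm 4 (by norm_num) (by first | (push_cast; linarith) | linarith)
  have k := p5_4 v (by linarith) (by linarith)
  norm_num at this k ⊢
  linarith

theorem chj5 : S_CHJ5 := fun u H h =>
  ⟨c0 u H h, c1 u H h, c2 u H h, c3 u H h, c4 u H h, c5 u H h⟩

end Pool.Agent.W79.IR
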